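import Pool.Agent.H345R2.Final2

/-!
# The Alternative Hypothesis with an error term `O(1 / log γ)` with small constant is false (on RH)

Assume the Riemann Hypothesis and list the positive ordinates of the nontrivial zeros as
`γ 0 ≤ γ 1 ≤ ...`, with multiplicity.  There is `η > 0` such that for every `ε > 0` and all large
`X` at least `X ^ (1 - ε)` of the normalised spacings `d j` with `γ j ≤ X` satisfy
`dist (d j, {1/2, 1, 3/2, ...}) ≥ η / log (γ j)`.
-/

open Filter Topology

namespace Pool.Agent.Results.MP_f0209c_nt.LogRateAH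

/-- `γ` lists the positive ordinates of the zeros of `ζ` on the critical line (all nontrivial
zeros, under the Riemann Hypothesis) in nondecreasing order and with multiplicity. -/
structure IsOrdinateList (γ : ℕ → ℝ) : Prop where
  pos : ∀ j, 0 < γ j
  mono : Monotone γ
  mult : ∀ t : ℝ, 0 < t → {j : ℕ | γ j = t}.encard =
    (analyticOrderAt riemannZeta (1 / 2 + (t : ℂ) * Complex.I) : ℕ∞)

/-- the normalisation `x ↦ (1/2π) x log x` -/
noncomputable def normOrd (x : ℝ) : ℝ := 1 / (2 * Real.pi) * x * Real.log x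

/-- the normalised spacings `d_j` -/
noncomputable def spacing (γ : ℕ → ℝ) (j : ℕ) : ℝ := normOrd (γ (j + 1)) - normOrd (γ j)

/-- the set `{1/2, 1, 3/2, 2, ...}` -/
def halfIntegers : Set ℝ := {x : ℝ | ∃ k : ℕ, 1 ≤ k ∧ x = (k : ℝ) / 2}

theorem result (hRH : RiemannHypothesis) (γ : ℕ → ℝ) (hγ : IsOrdinateList γ) :
    ∃ η : ℝ, 0 < η ∧ ∀ ε : ℝ, 0 < ε → ∀ᶠ X : ℝ in atTop,
      X ^ (1 - ε) ≤ ({j : ℕ | γ j ≤ X ∧ η / Real.log (γ j) ≤
        Metric.infDist (spacing γ j) halfIntegers}.ncard : ℝ) := by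
  have hγ' : H345.IsZeroList γ := ⟨hγ.pos, hγ.mono, hγ.mult⟩
  obtain ⟨η, hη, h⟩ := H345.main2 hRH γ hγ'
  refine ⟨η, hη, fun ε hε => ?_⟩
  obtain ⟨X0, hX0⟩ := h ε hε
  filter_upwards [eventually_ge_atTop X0] with X hX
  obtain ⟨S, hS1, hS2⟩ := hX0 X hX
  refine hS1.trans ?_
  have hfin : {j : ℕ | γ j ≤ X ∧ η / Real.log (γ j) ≤
        Metric.infDist (spacing γ j) halfIntegers}.Finite :=
    (H345.list_finite hγ' X).subset fun j hj => hj.1
  have hsub : (S : Set ℕ) ⊆ {j : ℕ | γ j ≤ X ∧ η / Real.log (γ j) ≤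
        Metric.infDist (spacing γ j) halfIntegers} := fun j hj => hS2 j hj
  have := Set.ncard_le_ncard hsub hfin
  rw [Set.ncard_coe_finset] at this
  exact_mod_cast this

end Pool.Agent.Results.MP_f0209c_nt.LogRateAH
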